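import Mathlib

/-! Definitions for MP_40d7e0_al: the first Grigorchuk group, word length, sections, depth. -/

namespace Pool.Agent.Helper73.Grig

/-- The four generators. -/
inductive Letter
  | a
  | b
  | c
  | d

/-- The action of the four generators on finite binary words (`false` is the letter `0`, `true` is
the letter `1`):
`a(0w) = 1w`, `a(1w) = 0w`; `b(0w) = 0a(w)`, `b(1w) = 1c(w)`; `c(0w) = 0a(w)`, `c(1w) = 1d(w)`;
`d(0w) = 0w`, `d(1w) = 1b(w)`; the empty word is fixed. -/
def act : Letter → List Bool → List Bool
  | _, [] => []
  | .a, x :: w => (!x) :: w
  | .b, false :: w => false :: act .a w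
  | .b, true :: w => true :: act .c w
  | .c, false :: w => false :: act .a w
  | .c, true :: w => true :: act .d w
  | .d, false :: w => false :: w
  | .d, true :: w => true :: act .b w

theorem act_act (s : Letter) (w : List Bool) : act s (act s w) = w := by
  induction w generalizing s with
  | nil => cases s <;> simp [act]
  | cons x w ih => cases s <;> cases x <;> simp [act, ih]

/-- The four generators as permutations of the vertex set `X^*` of the binary rooted tree. -/
def gen (s : Letter) : Equiv.Perm (List Bool) where
  toFun := act s
  invFun := act s
  left_inv := act_act s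
  right_inv := act_act s

/-- The first Grigorchuk group. -/
def grigorchuk : Subgroup (Equiv.Perm (List Bool)) := Subgroup.closure (Set.range gen)

/-- Word length with respect to `{a, b, c, d}`: the least number of generators (with repetition)
whose product is `g`. -/
noncomputable def wordLength (g : Equiv.Perm (List Bool)) : ℕ :=
  sInf {n | ∃ l : List Letter, l.length = n ∧ (l.map gen).prod = g}

/-- The section of `g` at `u` is `h`, i.e. `g(uw) = g(u)h(w)` for all words `w`. -/
def IsSection (g : Equiv.Perm (List Bool)) (u : List Bool) (h : Equiv.Perm (List Bool)) : Prop :=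
  ∀ w : List Bool, g (u ++ w) = g u ++ h w

/-- The depth of `g`: the least `n ≥ 0` such that the section of `g` at every vertex `u` of level
`n` lies in `{1, a, b, c, d}`. -/
noncomputable def depth (g : Equiv.Perm (List Bool)) : ℕ :=
  sInf {n | ∀ u : List Bool, u.length = n → ∃ h, (h = 1 ∨ ∃ s, h = gen s) ∧ IsSection g u h}

end Pool.Agent.Helper73.Grig
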