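import Mathlib
import Pool.Agent.Helper73.GrigDefs

namespace Pool.Agent.Helper73.Grig

/-! ### Basic facts -/

@[simp] lemma gen_nil (s : Letter) : gen s [] = [] := by
  cases s <;> simp [gen, act]

@[simp] lemma gen_apply_a (x : Bool) (w : List Bool) : gen .a (x :: w) = (!x) :: w := rfl
@[simp] lemma gen_b_false (w : List Bool) : gen .b (false :: w) = false :: gen .a w := rfl
@[simp] lemma gen_b_true (w : List Bool) : gen .b (true :: w) = true :: gen .c w := rfl
@[simp] lemma gen_c_false (w : List Bool) : gen .c (false :: w) = false :: gen .a w := rfl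
@[simp] lemma gen_c_true (w : List Bool) : gen .c (true :: w) = true :: gen .d w := rfl
@[simp] lemma gen_d_false (w : List Bool) : gen .d (false :: w) = false :: w := rfl
@[simp] lemma gen_d_true (w : List Bool) : gen .d (true :: w) = true :: gen .b w := rfl

lemma gen_mul_self (s : Letter) : gen s * gen s = 1 := Equiv.ext fun w => act_act s w

lemma klein (w : List Bool) :
    gen .b (gen .c w) = gen .d w ∧ gen .c (gen .b w) = gen .d w ∧
    gen .c (gen .d w) = gen .b w ∧ gen .d (gen .c w) = gen .b w ∧
    gen .d (gen .b w) = gen .c w ∧ gen .b (gen .d w) = gen .c w := by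
  induction w with
  | nil => simp
  | cons x w ih =>
    have haa : gen .a (gen .a w) = w := act_act .a w
    obtain ⟨h1, h2, h3, h4, h5, h6⟩ := ih
    cases x <;> simp [h1, h2, h3, h4, h5, h6, haa]

/-- Evaluation of a word in the generators. -/
def ev (l : List Letter) : Equiv.Perm (List Bool) := (l.map gen).prod

@[simp] lemma ev_nil : ev [] = 1 := rfl
@[simp] lemma ev_cons (s : Letter) (l : List Letter) : ev (s :: l) = gen s * ev l := by
  simp [ev]
lemma ev_append (l l' : List Letter) : ev (l ++ l') = ev l * ev l' := by simp [ev]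

/-- A product of two letters different from `a` is `1` or a letter. -/
lemma merge {s t : Letter} (hs : s ≠ .a) (ht : t ≠ .a) :
    gen s * gen t = 1 ∨ ∃ r, gen s * gen t = gen r := by
  have k := klein
  cases s <;> cases t <;> first
    | exact absurd rfl hs
    | exact absurd rfl ht
    | exact Or.inl (gen_mul_self _)
    | exact Or.inr ⟨.d, Equiv.ext fun w => (k w).1⟩
    | exact Or.inr ⟨.d, Equiv.ext fun w => (k w).2.1⟩
    | exact Or.inr ⟨.b, Equiv.ext fun w => (k w).2.2.1⟩
    | exact Or.inr ⟨.b, Equiv.ext fun w => (k w).2.2.2.1⟩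
    | exact Or.inr ⟨.c, Equiv.ext fun w => (k w).2.2.2.2.1⟩
    | exact Or.inr ⟨.c, Equiv.ext fun w => (k w).2.2.2.2.2⟩

/-- Number of letters different from `a`. -/
def nb : List Letter → ℕ
  | [] => 0
  | .a :: l => nb l
  | _ :: l => nb l + 1

lemma nb_cons_of_ne {s : Letter} (hs : s ≠ .a) (l : List Letter) : nb (s :: l) = nb l + 1 := by
  cases s <;> first | exact absurd rfl hs | rfl

/-- No two adjacent letters different from `a`. -/
def Good : List Letter → Prop
  | [] => True
  | [_] => True
  | s :: t :: l => (s = .a ∨ t = .a) ∧ Good (t :: l)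

lemma good_tail {s : Letter} {l : List Letter} (h : Good (s :: l)) : Good l := by
  cases l with
  | nil => trivial
  | cons t l => exact h.2

lemma good_cons_a {l : List Letter} (h : Good l) : Good (.a :: l) := by
  cases l with
  | nil => trivial
  | cons t l => exact ⟨Or.inl rfl, h⟩

lemma good_replace {s r : Letter} {l : List Letter} (hs : s ≠ .a) (h : Good (s :: l)) :
    Good (r :: l) := by
  cases l with
  | nil => trivial
  | cons t l => exact ⟨Or.inr (h.1.resolve_left hs), h.2⟩

lemma nb_le : ∀ l : List Letter, Good l → 2 * nb l ≤ l.length + 1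
  | [], _ => by simp [nb]
  | [s], _ => by cases s <;> simp [nb]
  | s :: t :: l, h => by
    by_cases hs : s = .a
    · subst hs
      have := nb_le (t :: l) h.2
      simp only [nb, List.length_cons] at this ⊢
      omega
    · have ht : t = .a := h.1.resolve_left hs
      subst ht
      have := nb_le l (good_tail h.2)
      rw [nb_cons_of_ne hs]
      simp only [nb, List.length_cons] at this ⊢
      omega

/-- Every word can be rewritten, without increasing the length, so that no two letters different
from `a` are adjacent. -/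
lemma exists_good (l : List Letter) :
    ∃ l', ev l' = ev l ∧ l'.length ≤ l.length ∧ Good l' := by
  induction l with
  | nil => exact ⟨[], rfl, le_rfl, trivial⟩
  | cons s l ih =>
    obtain ⟨l', h1, h2, h3⟩ := ih
    by_cases hs : s = .a
    · subst hs
      exact ⟨.a :: l', by rw [ev_cons, h1, ev_cons], by simpa using h2, good_cons_a h3⟩
    · cases l' with
      | nil => exact ⟨[s], by rw [ev_cons, h1, ev_cons], by simp, trivial⟩
      | cons t l' =>
        by_cases ht : t = .a
        · subst ht
          exact ⟨s :: .a :: l', by rw [ev_cons, h1, ev_cons], by simpa using h2,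
            ⟨Or.inr rfl, h3⟩⟩
        · rcases merge hs ht with h | ⟨r, h⟩
          · refine ⟨l', ?_, ?_, good_tail h3⟩
            · rw [ev_cons, ← h1, ev_cons, ← mul_assoc, h, one_mul]
            · simp only [List.length_cons] at h2 ⊢
              omega
          · refine ⟨r :: l', ?_, ?_, good_replace ht h3⟩
            · rw [ev_cons, ev_cons s, ← h1, ev_cons t, ← mul_assoc, h]
            · simp only [List.length_cons] at h2 ⊢
              omega

/-- First-level sections of a word. -/
lemma section_word (l : List Letter) (x : Bool) :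
    ∃ (y : Bool) (l' : List Letter), (∀ w, ev l (x :: w) = y :: ev l' w) ∧ l'.length ≤ nb l := by
  induction l with
  | nil => exact ⟨x, [], fun w => rfl, le_rfl⟩
  | cons s l ih =>
    obtain ⟨y, l', h1, h2⟩ := ih
    have h3 : ∀ w, ev (s :: l) (x :: w) = gen s (y :: ev l' w) := by
      intro w
      rw [ev_cons, Equiv.Perm.mul_apply, h1]
    cases s with
    | a => exact ⟨!y, l', fun w => by rw [h3]; rfl, h2⟩
    | b =>
      cases y with
      | false => exact ⟨false, .a :: l', fun w => by rw [h3]; simp, by simpa [nb] using h2⟩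
      | true => exact ⟨true, .c :: l', fun w => by rw [h3]; simp, by simpa [nb] using h2⟩
    | c =>
      cases y with
      | false => exact ⟨false, .a :: l', fun w => by rw [h3]; simp, by simpa [nb] using h2⟩
      | true => exact ⟨true, .d :: l', fun w => by rw [h3]; simp, by simpa [nb] using h2⟩
    | d =>
      cases y with
      | false => exact ⟨false, l', fun w => by rw [h3]; simp, by simp only [nb]; omega⟩
      | true => exact ⟨true, .b :: l', fun w => by rw [h3]; simp, by simpa [nb] using h2⟩

lemma section_level_one (l : List Letter) (x : Bool) :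
    ∃ (y : Bool) (l' : List Letter), (∀ w, ev l (x :: w) = y :: ev l' w) ∧
      2 * l'.length ≤ l.length + 1 := by
  obtain ⟨l1, h1, h2, h3⟩ := exists_good l
  obtain ⟨y, l', h4, h5⟩ := section_word l1 x
  refine ⟨y, l', fun w => by rw [← h1, h4], ?_⟩
  have := nb_le l1 h3
  omega

lemma isSection_nil (g : Equiv.Perm (List Bool)) (hg : g [] = []) : IsSection g [] g := by
  intro w
  simp [hg]

lemma ev_apply_nil (l : List Letter) : ev l [] = [] := by
  induction l with
  | nil => rfl
  | cons s l ih => rw [ev_cons, Equiv.Perm.mul_apply, ih, gen_nil]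

lemma section_level (n : ℕ) : ∀ (l : List Letter) (u : List Bool), u.length = n →
    ∃ l' : List Letter, IsSection (ev l) u (ev l') ∧
      2 ^ n * l'.length + 1 ≤ l.length + 2 ^ n := by
  induction n with
  | zero =>
    intro l u hu
    rw [List.length_eq_zero_iff] at hu
    subst hu
    exact ⟨l, isSection_nil _ (ev_apply_nil l), by simp⟩
  | succ n ih =>
    intro l u hu
    cases u with
    | nil => simp at hu
    | cons x u =>
      obtain ⟨y, l1, h1, h2⟩ := section_level_one l x
      obtain ⟨l2, h3, h4⟩ := ih l1 u (by simpa using hu)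
      refine ⟨l2, ?_, ?_⟩
      · intro w
        rw [List.cons_append, h1, h1, h3 w, List.cons_append]
      · rw [pow_succ]
        nlinarith

/-- `d(g) ≤ n` as soon as `|g| ≤ 2^n`. -/
lemma level_mem {n : ℕ} {l : List Letter} (hl : l.length ≤ 2 ^ n) :
    ∀ u : List Bool, u.length = n → ∃ h, (h = 1 ∨ ∃ s, h = gen s) ∧ IsSection (ev l) u h := by
  intro u hu
  obtain ⟨l', h1, h2⟩ := section_level n l u hu
  have h3 : l'.length ≤ 1 := by
    have hp : 0 < 2 ^ n := by positivity
    by_contra hcon
    have : 2 ≤ l'.length := by omega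
    have : 2 ^ n * 2 ≤ 2 ^ n * l'.length := Nat.mul_le_mul_left _ this
    omega
  refine ⟨ev l', ?_, h1⟩
  cases l' with
  | nil => exact Or.inl rfl
  | cons s l' =>
    have : l' = [] := by
      rw [← List.length_eq_zero_iff]
      simp only [List.length_cons] at h3
      omega
    subst this
    exact Or.inr ⟨s, by simp⟩

lemma exists_word {g : Equiv.Perm (List Bool)} (hg : g ∈ grigorchuk) :
    ∃ l : List Letter, ev l = g := by
  induction hg using Subgroup.closure_induction with
  | mem x hx =>
    obtain ⟨s, rfl⟩ := hx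
    exact ⟨[s], by simp⟩
  | one => exact ⟨[], rfl⟩
  | mul x y _ _ hx hy =>
    obtain ⟨l, rfl⟩ := hx
    obtain ⟨l', rfl⟩ := hy
    exact ⟨l ++ l', ev_append l l'⟩
  | inv x _ hx =>
    obtain ⟨l, rfl⟩ := hx
    refine ⟨l.reverse, ?_⟩
    symm
    rw [inv_eq_iff_mul_eq_one]
    clear * -
    induction l with
    | nil => simp
    | cons s l ih =>
      rw [List.reverse_cons, ev_append, ev_cons]
      have : gen s * ev l * (ev l.reverse * ev [s]) = gen s * (ev l * ev l.reverse) * gen s := by
        simp [mul_assoc]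
      rw [this, ih, mul_one, gen_mul_self]

lemma exists_min_word {g : Equiv.Perm (List Bool)} (hg : g ∈ grigorchuk) :
    ∃ l : List Letter, l.length = wordLength g ∧ ev l = g := by
  have hne : {n | ∃ l : List Letter, l.length = n ∧ (l.map gen).prod = g}.Nonempty := by
    obtain ⟨l, hl⟩ := exists_word hg
    exact ⟨l.length, l, rfl, hl⟩
  exact Nat.sInf_mem hne

lemma wordLength_pos {g : Equiv.Perm (List Bool)} (hg : g ∈ grigorchuk) (h1 : g ≠ 1) :
    1 ≤ wordLength g := by
  obtain ⟨l, hl, hg'⟩ := exists_min_word hg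
  by_contra hcon
  have h0 : l.length = 0 := by omega
  rw [List.length_eq_zero_iff] at h0
  subst h0
  exact h1 hg'.symm

lemma depth_le {g : Equiv.Perm (List Bool)} (hg : g ∈ grigorchuk) {n : ℕ}
    (h : wordLength g ≤ 2 ^ n) : depth g ≤ n := by
  obtain ⟨l, hl, rfl⟩ := exists_min_word hg
  exact Nat.sInf_le (level_mem (hl ▸ h))

/-- The upper bound: `d(g) ≤ log₂ |g| + 1`. -/
lemma depth_le_logb {g : Equiv.Perm (List Bool)} (hg : g ∈ grigorchuk) (h1 : g ≠ 1) :
    (depth g : ℝ) ≤ 1 * Real.logb 2 (wordLength g) + 1 := by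
  have hpos := wordLength_pos hg h1
  have h2 : depth g ≤ Nat.clog 2 (wordLength g) :=
    depth_le hg (Nat.le_pow_clog (by norm_num) _)
  rw [← Real.natCeil_logb_natCast] at h2
  have h3 : (0 : ℝ) ≤ Real.logb 2 (wordLength g) :=
    Real.logb_nonneg (by norm_num) (by exact_mod_cast hpos)
  have h4 := Nat.ceil_lt_add_one h3
  have h5 : (depth g : ℝ) ≤ (⌈Real.logb 2 (wordLength g)⌉₊ : ℝ) := by exact_mod_cast h2
  linarith

/-! ### The lower bound -/

/-- The substitution `a ↦ b, b ↦ ada, c ↦ aba, d ↦ aca`. -/
def sub : Letter → List Letter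
  | .a => [.b]
  | .b => [.a, .d, .a]
  | .c => [.a, .b, .a]
  | .d => [.a, .c, .a]

lemma ev_sub (l : List Letter) (w : List Bool) :
    ev (l.flatMap sub) (false :: w) = false :: ev l w := by
  induction l with
  | nil => rfl
  | cons s l ih =>
    rw [List.flatMap_cons, ev_append, Equiv.Perm.mul_apply, ih, ev_cons,
      Equiv.Perm.mul_apply]
    cases s <;> simp [sub]

/-- The weight `#a + 2 #{b,c,d}`. -/
def wt : List Letter → ℕ
  | [] => 0
  | .a :: l => wt l + 1
  | _ :: l => wt l + 2

lemma wt_append (l l' : List Letter) : wt (l ++ l') = wt l + wt l' := by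
  induction l with
  | nil => simp [wt]
  | cons s l ih => cases s <;> simp [wt, ih] <;> ring

lemma wt_sub (l : List Letter) : wt (l.flatMap sub) = 2 * wt l := by
  induction l with
  | nil => rfl
  | cons s l ih =>
    rw [List.flatMap_cons, wt_append, ih]
    cases s <;> simp [wt, sub] <;> ring

lemma length_le_wt (l : List Letter) : l.length ≤ wt l := by
  induction l with
  | nil => simp
  | cons s l ih => cases s <;> simp only [wt, List.length_cons] <;> omega

/-- The words of the extremal elements. -/
def wd : ℕ → List Letter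
  | 0 => [.a, .b]
  | n + 1 => (wd n).flatMap sub

lemma wt_wd (n : ℕ) : wt (wd n) = 3 * 2 ^ n := by
  induction n with
  | zero => rfl
  | succ n ih => rw [wd, wt_sub, ih]; ring

lemma ev_wd (n : ℕ) (w : List Bool) :
    ev (wd n) (List.replicate n false ++ w) = List.replicate n false ++ ev [.a, .b] w := by
  induction n with
  | zero => rfl
  | succ n ih => rw [wd, List.replicate_succ, List.cons_append, ev_sub, ih, List.cons_append]

lemma ev_mem (l : List Letter) : ev l ∈ grigorchuk := by
  refine Subgroup.list_prod_mem _ ?_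
  intro x hx
  obtain ⟨s, -, rfl⟩ := List.mem_map.1 hx
  exact Subgroup.subset_closure ⟨s, rfl⟩

lemma wordLength_wd (n : ℕ) : wordLength (ev (wd n)) ≤ 3 * 2 ^ n := by
  rw [← wt_wd n]
  have h : (wd n).length ∈ {m | ∃ l : List Letter, l.length = m ∧
      (l.map gen).prod = ev (wd n)} := ⟨wd n, rfl, rfl⟩
  exact (Nat.sInf_le h).trans (length_le_wt _)

lemma isSection_unique {g h h' : Equiv.Perm (List Bool)} {u : List Bool} (h1 : IsSection g u h)
    (h2 : IsSection g u h') : h = h' := by
  refine Equiv.ext fun w => ?_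
  have := (h1 w).symm.trans (h2 w)
  exact List.append_cancel_left this

lemma isSection_wd (n : ℕ) : IsSection (ev (wd n)) (List.replicate n false) (ev [.a, .b]) := by
  intro w
  have h := ev_wd n []
  rw [List.append_nil, ev_apply_nil, List.append_nil] at h
  rw [ev_wd, h]

lemma section_gen (s : Letter) (x : Bool) :
    ∃ (y : Bool) (h : Equiv.Perm (List Bool)), (h = 1 ∨ ∃ s, h = gen s) ∧
      ∀ w, gen s (x :: w) = y :: h w := by
  cases s with
  | a => exact ⟨!x, 1, Or.inl rfl, fun w => rfl⟩
  | b =>
    cases x with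
    | false => exact ⟨false, gen .a, Or.inr ⟨_, rfl⟩, fun w => rfl⟩
    | true => exact ⟨true, gen .c, Or.inr ⟨_, rfl⟩, fun w => rfl⟩
  | c =>
    cases x with
    | false => exact ⟨false, gen .a, Or.inr ⟨_, rfl⟩, fun w => rfl⟩
    | true => exact ⟨true, gen .d, Or.inr ⟨_, rfl⟩, fun w => rfl⟩
  | d =>
    cases x with
    | false => exact ⟨false, 1, Or.inl rfl, fun w => rfl⟩
    | true => exact ⟨true, gen .b, Or.inr ⟨_, rfl⟩, fun w => rfl⟩

lemma section_nucleus (v : List Bool) : ∀ h : Equiv.Perm (List Bool), (h = 1 ∨ ∃ s, h = gen s) →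
    ∃ h', (h' = 1 ∨ ∃ s, h' = gen s) ∧ IsSection h v h' := by
  induction v with
  | nil =>
    intro h hh
    refine ⟨h, hh, isSection_nil h ?_⟩
    rcases hh with rfl | ⟨s, rfl⟩
    · rfl
    · exact gen_nil s
  | cons x v ih =>
    intro h hh
    rcases hh with rfl | ⟨s, rfl⟩
    · exact ⟨1, Or.inl rfl, fun w => rfl⟩
    · obtain ⟨y, h1, hh1, h2⟩ := section_gen s x
      obtain ⟨h3, hh3, h4⟩ := ih h1 hh1
      refine ⟨h3, hh3, fun w => ?_⟩
      rw [List.cons_append, h2, h2, h4 w, List.cons_append]

lemma ab_not_nucleus : ¬ (ev [.a, .b] = 1 ∨ ∃ s, ev [.a, .b] = gen s) := by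
  rintro (h | ⟨s, h⟩)
  · have := congrArg (fun g : Equiv.Perm (List Bool) => g [false]) h
    simp at this
  · have h1 := congrArg (fun g : Equiv.Perm (List Bool) => g [false, false]) h
    have h2 := congrArg (fun g : Equiv.Perm (List Bool) => g [true, true, false]) h
    cases s <;> simp at h1 h2

lemma depth_wd (n : ℕ) : n + 1 ≤ depth (ev (wd n)) := by
  by_contra hcon
  have hle : depth (ev (wd n)) ≤ n := by omega
  have hne : {m | ∀ u : List Bool, u.length = m →
      ∃ h, (h = 1 ∨ ∃ s, h = gen s) ∧ IsSection (ev (wd n)) u h}.Nonempty :=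
    ⟨(wd n).length, level_mem (Nat.lt_two_pow_self).le⟩
  have hmem := Nat.sInf_mem hne
  obtain ⟨m, hm⟩ : ∃ m, m = depth (ev (wd n)) := ⟨_, rfl⟩
  have hmem' : ∀ u : List Bool, u.length = m →
      ∃ h, (h = 1 ∨ ∃ s, h = gen s) ∧ IsSection (ev (wd n)) u h := by
    rw [hm]
    exact hmem
  rw [← hm] at hle
  obtain ⟨h, hh, h1⟩ := hmem' (List.replicate m false) (by simp)
  obtain ⟨h', hh', h2⟩ := section_nucleus (List.replicate (n - m) false) h hh
  have h3 : IsSection (ev (wd n)) (List.replicate n false) h' := by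
    have e : List.replicate n false = List.replicate m false ++ List.replicate (n - m) false := by
      rw [List.replicate_append_replicate]
      congr 1
      omega
    intro w
    rw [e, List.append_assoc, h1, h2, h1, List.append_assoc]
  have h4 := isSection_unique h3 (isSection_wd n)
  rw [h4] at hh'
  exact ab_not_nucleus hh'

lemma wd_ne_one (n : ℕ) : ev (wd n) ≠ 1 := by
  intro h
  have h1 := isSection_wd n
  rw [h] at h1
  have h2 : IsSection 1 (List.replicate n false) 1 := fun w => rfl
  exact ab_not_nucleus (Or.inl (isSection_unique h1 h2))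

/-- **Answer to Q1 and Q2.** The least `lam` for which there is a constant `c` with
`d(g) ≤ lam * log₂ |g| + c` for all `g ≠ 1` in the Grigorchuk group is `1`. -/
theorem main :
    IsLeast {lam : ℝ | ∃ c : ℝ, ∀ g ∈ grigorchuk, g ≠ 1 →
      (depth g : ℝ) ≤ lam * Real.logb 2 (wordLength g) + c} 1 := by
  refine ⟨⟨1, fun g hg h1 => depth_le_logb hg h1⟩, ?_⟩
  rintro lam ⟨c, hc⟩
  by_contra hlt
  push Not at hlt
  -- the bound for the elements `ev (wd n)`
  have key : ∀ n : ℕ, (n : ℝ) + 1 ≤ max lam 0 * ((n : ℝ) + 2) + c := by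
    intro n
    have h1 := hc _ (ev_mem (wd n)) (wd_ne_one n)
    have h2 : ((n : ℝ) + 1) ≤ depth (ev (wd n)) := by exact_mod_cast depth_wd n
    have hpos : (1 : ℝ) ≤ wordLength (ev (wd n)) := by
      exact_mod_cast wordLength_pos (ev_mem _) (wd_ne_one n)
    have h3 : 0 ≤ Real.logb 2 (wordLength (ev (wd n))) :=
      Real.logb_nonneg (by norm_num) hpos
    have h4 : Real.logb 2 (wordLength (ev (wd n))) ≤ (n : ℝ) + 2 := by
      rw [Real.logb_le_iff_le_rpow (by norm_num) (by linarith)]
      have h5 : (wordLength (ev (wd n)) : ℝ) ≤ 3 * 2 ^ n := by exact_mod_cast wordLength_wd n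
      have h6 : (2 : ℝ) ^ ((n : ℝ) + 2) = 4 * 2 ^ n := by
        rw [Real.rpow_add (by norm_num), Real.rpow_natCast]
        norm_num
        ring
      rw [h6]
      have : (0 : ℝ) < 2 ^ n := by positivity
      linarith
    have h7 : lam * Real.logb 2 (wordLength (ev (wd n))) ≤ max lam 0 * ((n : ℝ) + 2) := by
      calc lam * Real.logb 2 (wordLength (ev (wd n)))
          ≤ max lam 0 * Real.logb 2 (wordLength (ev (wd n))) :=
            mul_le_mul_of_nonneg_right (le_max_left _ _) h3
        _ ≤ max lam 0 * ((n : ℝ) + 2) := mul_le_mul_of_nonneg_left h4 (le_max_right _ _)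
    linarith
  have hmax : max lam 0 < 1 := max_lt hlt one_pos
  have hmax0 : 0 ≤ max lam 0 := le_max_right _ _
  obtain ⟨n, hn⟩ := exists_nat_gt ((1 + c) / (1 - max lam 0))
  have h8 := key n
  rw [div_lt_iff₀ (by linarith)] at hn
  nlinarith

end Pool.Agent.Helper73.Grig
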