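import Mathlib

/-! The Coxeter group of type `H₃` is isomorphic to `A₅ × C₂`. -/

namespace Pool.Agent.Helper73.H3

open CoxeterMatrix
open scoped commutatorElement

set_option maxRecDepth 100000

/-- the Coxeter group of type `H₃`. -/
abbrev W := H₃.Group

noncomputable def a : W := H₃.simple 0
noncomputable def b : W := H₃.simple 1
noncomputable def c : W := H₃.simple 2

lemma aa : a * a = 1 := H₃.toCoxeterSystem.simple_mul_simple_self 0
lemma bb : b * b = 1 := H₃.toCoxeterSystem.simple_mul_simple_self 1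
lemma cc : c * c = 1 := H₃.toCoxeterSystem.simple_mul_simple_self 2

lemma ab3 : (a * b) ^ 3 = 1 := H₃.toCoxeterSystem.simple_mul_simple_pow 0 1
lemma bc5 : (b * c) ^ 5 = 1 := H₃.toCoxeterSystem.simple_mul_simple_pow 1 2
lemma ac2 : (a * c) ^ 2 = 1 := H₃.toCoxeterSystem.simple_mul_simple_pow 0 2

lemma a_inv : a⁻¹ = a := inv_eq_of_mul_eq_one_left aa
lemma b_inv : b⁻¹ = b := inv_eq_of_mul_eq_one_left bb
lemma c_inv : c⁻¹ = c := inv_eq_of_mul_eq_one_left cc

lemma aba : a * b * a = b * a * b := by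
  have h := ab3
  have h2 : a * b * a = (b * a * b)⁻¹⁻¹ := by
    rw [eq_inv_iff_mul_eq_one]
    simp only [mul_inv_rev, a_inv, b_inv]
    rw [← h]
    simp only [pow_succ, pow_zero, one_mul, mul_assoc]
  simpa using h2

lemma aca : a * c = c * a := by
  have h := ac2
  have h2 : a * c = (c * a)⁻¹⁻¹ := by
    rw [eq_inv_iff_mul_eq_one]
    simp only [mul_inv_rev, a_inv, c_inv]
    rw [← h]
    simp only [pow_succ, pow_zero, one_mul, mul_assoc]
  simpa using h2

lemma bcbcb : b * c * b * c * b = c * b * c * b * c := by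
  have h := bc5
  have h2 : b * c * b * c * b = (c * b * c * b * c)⁻¹⁻¹ := by
    rw [eq_inv_iff_mul_eq_one]
    simp only [mul_inv_rev, b_inv, c_inv]
    rw [← h]
    simp only [pow_succ, pow_zero, one_mul, mul_assoc]
  simpa using h2

/-- the parabolic subgroup generated by `b` and `c`. -/
noncomputable def K : Subgroup W := Subgroup.closure {b, c}

lemma b_mem : b ∈ K := Subgroup.subset_closure (by simp)
lemma c_mem : c ∈ K := Subgroup.subset_closure (by simp)

/-- The ten elements of `K`. -/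
noncomputable def e : Fin 10 → W :=
  ![1, b, c, b * c, c * b, b * c * b, c * b * c, b * c * b * c, c * b * c * b, b * c * b * c * b]

lemma mul_b_e (i : Fin 10) : ∃ j, b * e i = e j := by
  have hb : ∀ x : W, b * (b * x) = x := fun x => by rw [← mul_assoc, bb, one_mul]
  fin_cases i
  · exact ⟨1, by simp [e]⟩
  · exact ⟨0, by simp [e, bb]⟩
  · exact ⟨3, by simp [e]⟩
  · exact ⟨2, by simp [e, hb]⟩
  · exact ⟨5, by simp [e, mul_assoc]⟩
  · exact ⟨4, by simp [e, mul_assoc, hb]⟩
  · exact ⟨7, by simp [e, mul_assoc]⟩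
  · exact ⟨6, by simp [e, mul_assoc, hb]⟩
  · exact ⟨9, by simp [e, mul_assoc]⟩
  · exact ⟨8, by simp [e, mul_assoc, hb]⟩

lemma mul_c_e (i : Fin 10) : ∃ j, c * e i = e j := by
  have hc : ∀ x : W, c * (c * x) = x := fun x => by rw [← mul_assoc, cc, one_mul]
  fin_cases i
  · exact ⟨2, by simp [e]⟩
  · exact ⟨4, by simp [e]⟩
  · exact ⟨0, by simp [e, cc]⟩
  · exact ⟨6, by simp [e, mul_assoc]⟩
  · exact ⟨1, by simp [e, hc]⟩
  · exact ⟨8, by simp [e, mul_assoc]⟩
  · exact ⟨3, by simp [e, mul_assoc, hc]⟩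
  · refine ⟨9, ?_⟩
    have h := bcbcb
    simp only [mul_assoc] at h
    simp [e, mul_assoc, h]
  · exact ⟨5, by simp [e, mul_assoc, hc]⟩
  · refine ⟨7, ?_⟩
    have h := bcbcb
    simp only [mul_assoc] at h
    simp [e, mul_assoc, h, hc]

lemma mem_K {x : W} (hx : x ∈ K) : ∃ j, x = e j := by
  induction hx using Subgroup.closure_induction_left with
  | one => exact ⟨0, by simp [e]⟩
  | mul_left x hx y hy ih =>
    obtain ⟨i, rfl⟩ := ih
    rcases hx with rfl | hx
    · exact mul_b_e i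
    · rw [Set.mem_singleton_iff] at hx
      subst hx
      exact mul_c_e i
  | inv_mul_cancel x hx y hy ih =>
    obtain ⟨i, rfl⟩ := ih
    rcases hx with rfl | hx
    · rw [b_inv]
      exact mul_b_e i
    · rw [Set.mem_singleton_iff] at hx
      subst hx
      rw [c_inv]
      exact mul_c_e i

/-- Twelve coset representatives. -/
noncomputable def r : Fin 12 → W :=
  ![1, a, b * a, c * b * a, b * c * b * a, c * b * c * b * a, a * b * c * b * a,
    a * c * b * c * b * a, b * a * c * b * c * b * a, c * b * a * c * b * c * b * a,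
    b * c * b * a * c * b * c * b * a, a * b * c * b * a * c * b * c * b * a]

noncomputable def v (i : Fin 12) : W ⧸ K := QuotientGroup.mk (r i)

lemma smul_mk (g h : W) : g • (QuotientGroup.mk h : W ⧸ K) = QuotientGroup.mk (g * h) := rfl

section Table

lemma sa (x : W ⧸ K) : a • a • x = x := by rw [← mul_smul, aa, one_smul]
lemma sb (x : W ⧸ K) : b • b • x = x := by rw [← mul_smul, bb, one_smul]
lemma sc (x : W ⧸ K) : c • c • x = x := by rw [← mul_smul, cc, one_smul]
lemma saba (x : W ⧸ K) : a • b • a • x = b • a • b • x := by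
  have h := congrArg (fun g : W => g • x) aba
  simpa only [mul_smul] using h
lemma sac (x : W ⧸ K) : a • c • x = c • a • x := by
  have h := congrArg (fun g : W => g • x) aca
  simpa only [mul_smul] using h
lemma sbcbcb (x : W ⧸ K) : b • c • b • c • b • x = c • b • c • b • c • x := by
  have h := congrArg (fun g : W => g • x) bcbcb
  simpa only [mul_smul] using h

lemma b0 : b • v 0 = v 0 := by
  rw [v, smul_mk, QuotientGroup.eq]
  simp [r]
  exact b_mem
lemma c0 : c • v 0 = v 0 := by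
  rw [v, smul_mk, QuotientGroup.eq]
  simp [r]
  exact c_mem

lemma a0 : a • v 0 = v 1 := by simp [v, r]
lemma b1 : b • v 1 = v 2 := by simp [v, r]
lemma c2 : c • v 2 = v 3 := by simp [v, r, mul_assoc]
lemma b3 : b • v 3 = v 4 := by simp [v, r, mul_assoc]
lemma c4 : c • v 4 = v 5 := by simp [v, r, mul_assoc]
lemma a4 : a • v 4 = v 6 := by simp [v, r, mul_assoc]
lemma a5 : a • v 5 = v 7 := by simp [v, r, mul_assoc]
lemma b7 : b • v 7 = v 8 := by simp [v, r, mul_assoc]
lemma c8 : c • v 8 = v 9 := by simp [v, r, mul_assoc]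
lemma b9 : b • v 9 = v 10 := by simp [v, r, mul_assoc]
lemma a10 : a • v 10 = v 11 := by simp [v, r, mul_assoc]

lemma a1 : a • v 1 = v 0 := by rw [← a0, sa]
lemma b2 : b • v 2 = v 1 := by rw [← b1, sb]
lemma c3 : c • v 3 = v 2 := by rw [← c2, sc]
lemma b4 : b • v 4 = v 3 := by rw [← b3, sb]
lemma c5 : c • v 5 = v 4 := by rw [← c4, sc]
lemma a6 : a • v 6 = v 4 := by rw [← a4, sa]
lemma a7 : a • v 7 = v 5 := by rw [← a5, sa]
lemma b8 : b • v 8 = v 7 := by rw [← b7, sb]
lemma c9 : c • v 9 = v 8 := by rw [← c8, sc]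
lemma b10 : b • v 10 = v 9 := by rw [← b9, sb]
lemma a11 : a • v 11 = v 10 := by rw [← a10, sa]

lemma c1 : c • v 1 = v 1 := by rw [← a0, ← sac, c0]
lemma a2 : a • v 2 = v 2 := by rw [← b1, ← a0, saba, b0]
lemma a3 : a • v 3 = v 3 := by rw [← c2, sac, a2]
lemma b5 : b • v 5 = v 5 := by
  rw [← c4, ← b3, ← c2, ← b1, sbcbcb, c1]
lemma c7 : c • v 7 = v 6 := by rw [← a5, ← sac, c5, a4]
lemma c6 : c • v 6 = v 7 := by rw [← c7, sc]
lemma b6 : b • v 6 = v 6 := by
  rw [← a4, ← b3, ← saba, a3]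
lemma a8 : a • v 8 = v 8 := by
  rw [← b7, ← a5, saba, b5]
lemma a9 : a • v 9 = v 9 := by rw [← c8, sac, a8]
lemma c10 : c • v 10 = v 10 := by
  rw [← b9, ← c8, ← b7, ← c6, ← sbcbcb, b6]
lemma c11 : c • v 11 = v 11 := by rw [← a10, ← sac, c10]
lemma b11 : b • v 11 = v 11 := by
  rw [← a10, ← b9, ← saba, a9]

lemma table (x : W) (hx : x = a ∨ x = b ∨ x = c) (i : Fin 12) : ∃ j, x • v i = v j := by
  rcases hx with rfl | rfl | rfl
  · fin_cases i
    exacts [⟨_, a0⟩, ⟨_, a1⟩, ⟨_, a2⟩, ⟨_, a3⟩, ⟨_, a4⟩, ⟨_, a5⟩, ⟨_, a6⟩, ⟨_, a7⟩, ⟨_, a8⟩,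
      ⟨_, a9⟩, ⟨_, a10⟩, ⟨_, a11⟩]
  · fin_cases i
    exacts [⟨_, b0⟩, ⟨_, b1⟩, ⟨_, b2⟩, ⟨_, b3⟩, ⟨_, b4⟩, ⟨_, b5⟩, ⟨_, b6⟩, ⟨_, b7⟩, ⟨_, b8⟩,
      ⟨_, b9⟩, ⟨_, b10⟩, ⟨_, b11⟩]
  · fin_cases i
    exacts [⟨_, c0⟩, ⟨_, c1⟩, ⟨_, c2⟩, ⟨_, c3⟩, ⟨_, c4⟩, ⟨_, c5⟩, ⟨_, c6⟩, ⟨_, c7⟩, ⟨_, c8⟩,
      ⟨_, c9⟩, ⟨_, c10⟩, ⟨_, c11⟩]

end Table

lemma exists_rep (w : W) : ∃ i, w • v 0 = v i := by
  induction w using H₃.toCoxeterSystem.simple_induction_left with
  | one => exact ⟨0, one_smul _ _⟩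
  | mul_simple_left w i ih =>
    obtain ⟨j, hj⟩ := ih
    rw [mul_smul, hj]
    apply table
    fin_cases i
    · exact Or.inl rfl
    · exact Or.inr (Or.inl rfl)
    · exact Or.inr (Or.inr rfl)

/-- Every element of `W` is one of `12 * 10` explicit products. -/
lemma surj : Function.Surjective (fun p : Fin 12 × Fin 10 => r p.1 * e p.2) := by
  intro w
  obtain ⟨i, hi⟩ := exists_rep w
  have h1 : (QuotientGroup.mk w : W ⧸ K) = QuotientGroup.mk (r i) := by
    have : w • v 0 = QuotientGroup.mk w := by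
      rw [v, smul_mk]
      simp [r]
    rw [← this, hi]
    rfl
  have h2 : (r i)⁻¹ * w ∈ K := QuotientGroup.eq.1 h1.symm
  obtain ⟨j, hj⟩ := mem_K h2
  exact ⟨(i, j), by simp only; rw [← hj]; group⟩

instance : Finite W := Finite.of_surjective _ surj

lemma card_le : Nat.card W ≤ 120 := by
  have := Nat.card_le_card_of_surjective _ surj
  simpa using this

/-! ### The homomorphism to `A₅ × C₂` -/

abbrev A5 := alternatingGroup (Fin 5)
abbrev C2 := Multiplicative (ZMod 2)

def x0 : A5 := ⟨Equiv.swap 1 2 * Equiv.swap 3 4, Equiv.Perm.mem_alternatingGroup.2 (by decide)⟩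
def x1 : A5 := ⟨Equiv.swap 0 1 * Equiv.swap 3 4, Equiv.Perm.mem_alternatingGroup.2 (by decide)⟩
def x2 : A5 := ⟨Equiv.swap 1 3 * Equiv.swap 2 4, Equiv.Perm.mem_alternatingGroup.2 (by decide)⟩
def z : C2 := Multiplicative.ofAdd 1

def f : Fin 3 → A5 × C2 := ![(x0, z), (x1, z), (x2, z)]

lemma f_liftable : H₃.IsLiftable f := by
  intro i j
  fin_cases i <;> fin_cases j <;> decide

noncomputable def φ : W →* A5 × C2 := H₃.toCoxeterSystem.lift ⟨f, f_liftable⟩

lemma φ_a : φ a = (x0, z) := H₃.toCoxeterSystem.lift_apply_simple f_liftable 0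
lemma φ_b : φ b = (x1, z) := H₃.toCoxeterSystem.lift_apply_simple f_liftable 1
lemma φ_c : φ c = (x2, z) := H₃.toCoxeterSystem.lift_apply_simple f_liftable 2

/-- The image of the projection to `A₅`. -/
noncomputable def P : Subgroup A5 := (φ.range).map (MonoidHom.fst A5 C2)

lemma mem_P (w : W) : (φ w).1 ∈ P := ⟨φ w, ⟨w, rfl⟩, rfl⟩

lemma card_A5 : Nat.card A5 = 60 := by
  rw [nat_card_alternatingGroup]
  simp
  rfl

lemma P_eq_top : P = ⊤ := by
  have : Fact (Nat.Prime 5) := ⟨by norm_num⟩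
  have : Fact (Nat.Prime 3) := ⟨by norm_num⟩
  have h5 : 5 ∣ Nat.card P := by
    have h : orderOf (φ (b * c)).1 = 5 := by
      rw [map_mul, φ_b, φ_c]
      exact orderOf_eq_prime (p := 5) (by decide) (by decide)
    have h' := P.orderOf_dvd_natCard (mem_P (b * c))
    rwa [h] at h'
  have h3 : 3 ∣ Nat.card P := by
    have h : orderOf (φ (a * b)).1 = 3 := by
      rw [map_mul, φ_a, φ_b]
      exact orderOf_eq_prime (p := 3) (by decide) (by decide)
    have h' := P.orderOf_dvd_natCard (mem_P (a * b))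
    rwa [h] at h'
  have h2 : 2 ∣ Nat.card P := by
    have h : orderOf (φ a).1 = 2 := by
      rw [φ_a]
      exact orderOf_eq_prime (p := 2) (by decide) (by decide)
    have h' := P.orderOf_dvd_natCard (mem_P a)
    rwa [h] at h'
  have h30 : 30 ∣ Nat.card P := by omega
  have hdvd : Nat.card P ∣ 60 := by
    rw [← card_A5]
    exact P.card_subgroup_dvd_card
  have hmul : Nat.card P * P.index = 60 := by rw [P.card_mul_index, card_A5]
  have hidx : P.index = 1 ∨ P.index = 2 := by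
    obtain ⟨k, hk⟩ := h30
    rw [hk] at hmul
    have h1 : k * P.index = 2 := by nlinarith
    have : P.index ∣ 2 := ⟨k, by rw [← h1]; ring⟩
    exact (Nat.dvd_prime Nat.prime_two).1 this
  rcases hidx with h | h
  · exact Subgroup.index_eq_one.1 h
  · have : P.Normal := Subgroup.normal_of_index_eq_two h
    rcases (alternatingGroup.isSimpleGroup (α := Fin 5) (by simp)).eq_bot_or_eq_top_of_normal P
      this with h' | h'
    · rw [h'] at h5
      simp at h5
    · exact h'

lemma φ_surjective : Function.Surjective φ := by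
  rintro ⟨g, y⟩
  have hg : g ∈ P := by rw [P_eq_top]; trivial
  obtain ⟨q, ⟨w, rfl⟩, hw⟩ := hg
  change (φ w).1 = g at hw
  have hz : φ ((a * b * c) ^ 5) = (1, z) := by
    rw [map_pow, map_mul, map_mul, φ_a, φ_b, φ_c]
    decide
  have hy : ∀ y y' : C2, y = y' ∨ y = y' * z := by decide
  rcases hy y (φ w).2 with h | h
  · exact ⟨w, Prod.ext hw h.symm⟩
  · refine ⟨w * (a * b * c) ^ 5, ?_⟩
    rw [map_mul, hz]
    exact Prod.ext (by simpa using hw) h.symm

lemma φ_bijective : Function.Bijective φ := by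
  refine φ_surjective.bijective_of_nat_card_le ?_
  rw [Nat.card_prod, card_A5]
  simpa using card_le

/-- `W(H₃) ≅ A₅ × C₂`. -/
noncomputable def equivProd : W ≃* A5 × C2 := MulEquiv.ofBijective φ φ_bijective

lemma commutator_A5 : commutator A5 = ⊤ := by
  have hs := alternatingGroup.isSimpleGroup (α := Fin 5) (by simp)
  rcases hs.eq_bot_or_eq_top_of_normal (commutator A5) inferInstance with h | h
  · exfalso
    have hmem : ⁅x0, x1⁆ ∈ commutator A5 :=
      Subgroup.commutator_mem_commutator (Subgroup.mem_top _) (Subgroup.mem_top _)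
    rw [h, Subgroup.mem_bot] at hmem
    exact absurd hmem (by decide)
  · exact h

lemma commutator_D4 : commutator (DihedralGroup 4) = Subgroup.zpowers (DihedralGroup.r 2) := by
  apply le_antisymm
  · rw [commutator_def, Subgroup.commutator_le]
    intro g _ h _
    have key : ∀ g h : DihedralGroup 4, ⁅g, h⁆ = 1 ∨ ⁅g, h⁆ = DihedralGroup.r 2 := by decide
    rcases key g h with h1 | h1
    · rw [h1]; exact one_mem _
    · rw [h1]; exact Subgroup.mem_zpowers _
  · rw [Subgroup.zpowers_le]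
    have : (DihedralGroup.r 2 : DihedralGroup 4) =
        ⁅(DihedralGroup.r 1 : DihedralGroup 4), (DihedralGroup.sr 0 : DihedralGroup 4)⁆ := by
      decide
    rw [this]
    exact Subgroup.commutator_mem_commutator (Subgroup.mem_top _) (Subgroup.mem_top _)

lemma card_commutator_D4 : Nat.card (commutator (DihedralGroup 4)) = 2 := by
  rw [commutator_D4, Nat.card_zpowers]
  exact orderOf_eq_prime (p := 2) (by decide) (by decide)

/-- The derived subgroup of `A₅ × D₄` (`D₄` dihedral of order `8`) is isomorphic to `A₅ × C₂`. -/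
noncomputable def commutatorEquiv : commutator (A5 × DihedralGroup 4) ≃* A5 × C2 := by
  have h1 : commutator (A5 × DihedralGroup 4) =
      (⊤ : Subgroup A5).prod (commutator (DihedralGroup 4)) := by
    rw [commutator_def, ← Subgroup.top_prod_top, Subgroup.commutator_prod_prod, ← commutator_def,
      ← commutator_def, commutator_A5]
  have e1 := MulEquiv.subgroupCongr h1
  have e2 := Subgroup.prodEquiv (⊤ : Subgroup A5) (commutator (DihedralGroup 4))
  have e3 : commutator (DihedralGroup 4) ≃* C2 :=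
    mulEquivOfPrimeCardEq (p := 2) card_commutator_D4 (by simp)
  exact (e1.trans e2).trans (MulEquiv.prodCongr Subgroup.topEquiv e3)

theorem main : Nonempty (commutator (alternatingGroup (Fin 5) × DihedralGroup 4) ≃* H₃.Group) :=
  ⟨commutatorEquiv.trans equivProd.symm⟩

theorem not_C2 : ¬ Nonempty (H₃.Group ≃* Multiplicative (ZMod 2)) := by
  rintro ⟨e⟩
  have h1 := Nat.card_congr (equivProd.symm.trans e).toEquiv
  rw [Nat.card_prod, card_A5] at h1
  simp at h1

end Pool.Agent.Helper73.H3
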