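import Mathlib

namespace Pool.Agent.Helper73.Mix

open scoped RealInnerProductSpace

set_option linter.unusedSectionVars false

section Alg

variable {G : Type*} [Group G] [Fintype G]
variable {A : Type*} [NormedRing A] [NormedAlgebra ℝ A]
variable (ρ : G →* A)

/-- Product of the operators `1 + t g • ρ g`, over a list of group elements. -/
noncomputable def prodOp (L : List G) (t : G → ℝ) : A :=
  (L.map fun g => (1 : A) + t g • ρ g).prod

/-- Its derivative at `0`. -/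
noncomputable def derivOp (L : List G) : (G → ℝ) →L[ℝ] A :=
  (L.map fun g => (ContinuousLinearMap.proj (R := ℝ) (φ := fun _ : G => ℝ) g).smulRight (ρ g)).sum

lemma prodOp_zero (L : List G) : prodOp ρ L 0 = 1 := by
  induction L with
  | nil => simp [prodOp]
  | cons g L ih => simp [prodOp] at ih ⊢

lemma hasStrictFDerivAt_prodOp (L : List G) :
    HasStrictFDerivAt (prodOp ρ L) (derivOp ρ L) 0 := by
  induction L with
  | nil => exact hasStrictFDerivAt_const _ _
  | cons g L ih =>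
    have h1 : HasStrictFDerivAt (fun t : G → ℝ => (1 : A) + t g • ρ g)
        ((ContinuousLinearMap.proj (R := ℝ) (φ := fun _ : G => ℝ) g).smulRight (ρ g)) 0 := by
      have h2 := ((ContinuousLinearMap.proj (R := ℝ) (φ := fun _ : G => ℝ) g).smulRight
        (ρ g)).hasStrictFDerivAt (x := 0)
      exact h2.const_add 1
    have h3 := h1.mul' ih
    have e1 : prodOp ρ (g :: L) = (fun t : G → ℝ => (1 : A) + t g • ρ g) * prodOp ρ L := by
      funext t
      simp [prodOp]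
    have e3 : (1 : A) + (0 : G → ℝ) g • ρ g = 1 := by
      rw [Pi.zero_apply, zero_smul, add_zero]
    have e2 : derivOp ρ (g :: L) = ((1 : A) + (0 : G → ℝ) g • ρ g) • derivOp ρ L +
        MulOpposite.op (prodOp ρ L 0) •
        ((ContinuousLinearMap.proj (R := ℝ) (φ := fun _ : G => ℝ) g).smulRight (ρ g)) := by
      rw [prodOp_zero, e3, one_smul, MulOpposite.op_one, one_smul, add_comm]
      rfl
    rw [e1, e2]
    exact h3

lemma derivOp_apply (L : List G) (s : G → ℝ) :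
    derivOp ρ L s = (L.map fun g => s g • ρ g).sum := by
  induction L with
  | nil => simp [derivOp]
  | cons g L ih =>
    simp only [derivOp, List.map_cons, List.sum_cons, add_apply] at ih ⊢
    rw [ih]
    rfl

/-- strict derivative of the inverse of the product operator at `0`. -/
lemma hasStrictFDerivAt_inverse_prodOp [CompleteSpace A] (L : List G) :
    HasStrictFDerivAt (fun t => Ring.inverse (prodOp ρ L t)) (-(derivOp ρ L)) 0 := by
  have h1 := hasStrictFDerivAt_prodOp ρ L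
  have h2 : HasStrictFDerivAt (Ring.inverse : A → A)
      (-((ContinuousLinearMap.mulLeftRight ℝ A) ↑(1 : Aˣ)⁻¹) ↑(1 : Aˣ)⁻¹) ((1 : Aˣ) : A) := by
    have h3 := (contDiffAt_ringInverse ℝ (n := 1) (1 : Aˣ)).hasStrictFDerivAt (by norm_num)
    rwa [(hasFDerivAt_ringInverse (𝕜 := ℝ) (1 : Aˣ)).fderiv] at h3
  have h4 : ((1 : Aˣ) : A) = prodOp ρ L 0 := by rw [prodOp_zero]; simp
  rw [h4] at h2
  have h5 := h2.comp 0 h1
  have e : -(derivOp ρ L) =
      (-((ContinuousLinearMap.mulLeftRight ℝ A) ↑(1 : Aˣ)⁻¹) ↑(1 : Aˣ)⁻¹).comp (derivOp ρ L) := by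
    refine ContinuousLinearMap.ext fun s => ?_
    simp
  rw [e]
  exact h5

end Alg

section Core

variable {G : Type*} [Group G] [Fintype G]
variable {E : Type*} [NormedAddCommGroup E] [InnerProductSpace ℝ E] [FiniteDimensional ℝ E]

/-- Operators that are finite products of lazy steps `(1-p) + p * ρ g`. -/
def lazyMonoid (ρ : G →* (E →L[ℝ] E)) : Submonoid (E →L[ℝ] E) :=
  Submonoid.closure
    {T | ∃ (g : G) (p : ℝ), 0 ≤ p ∧ p ≤ 1 ∧ T = (1 - p) • (1 : E →L[ℝ] E) + p • ρ g}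

/-- Vectors reachable from `v`, up to a positive scalar. -/
def cone (ρ : G →* (E →L[ℝ] E)) (v : E) : Set E :=
  {y | ∃ c : ℝ, 0 < c ∧ ∃ T ∈ lazyMonoid ρ, y = c • T v}

variable (ρ : G →* (E →L[ℝ] E))

lemma lazy_mem (g : G) {p : ℝ} (h0 : 0 ≤ p) (h1 : p ≤ 1) :
    (1 - p) • (1 : E →L[ℝ] E) + p • ρ g ∈ lazyMonoid ρ :=
  Submonoid.subset_closure ⟨g, p, h0, h1, rfl⟩

lemma self_mem_cone (v : E) : v ∈ cone ρ v :=
  ⟨1, one_pos, 1, one_mem _, by simp⟩

lemma smul_mem_cone {v y : E} {c : ℝ} (hc : 0 < c) (hy : y ∈ cone ρ v) : c • y ∈ cone ρ v := by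
  obtain ⟨d, hd, T, hT, rfl⟩ := hy
  exact ⟨c * d, mul_pos hc hd, T, hT, by rw [smul_smul]⟩

lemma apply_mem_cone {v y : E} {T : E →L[ℝ] E} (hT : T ∈ lazyMonoid ρ) (hy : y ∈ cone ρ v) :
    T y ∈ cone ρ v := by
  obtain ⟨d, hd, S, hS, rfl⟩ := hy
  exact ⟨d, hd, T * S, mul_mem hT hS, by simp⟩

lemma one_add_smul_eq (g : G) {t : ℝ} (ht : 0 ≤ t) :
    (1 : E →L[ℝ] E) + t • ρ g =
      (1 + t) • ((1 - t / (1 + t)) • (1 : E →L[ℝ] E) + (t / (1 + t)) • ρ g) := by
  have h : (1 + t) ≠ 0 := by positivity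
  rw [smul_add, smul_smul, smul_smul]
  congr 1
  · have : (1 + t) * (1 - t / (1 + t)) = 1 := by field_simp; ring
    rw [this, one_smul]
  · congr 1
    field_simp

lemma frac_mem {t : ℝ} (ht : 0 ≤ t) : 0 ≤ t / (1 + t) ∧ t / (1 + t) ≤ 1 := by
  constructor
  · positivity
  · rw [div_le_one (by positivity)]; linarith

lemma step_mem_cone {v y : E} (g : G) {t : ℝ} (ht : 0 ≤ t) (hy : y ∈ cone ρ v) :
    y + t • ρ g y ∈ cone ρ v := by
  have h := smul_mem_cone ρ (c := 1 + t) (by positivity)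
    (apply_mem_cone ρ (lazy_mem ρ g (frac_mem ht).1 (frac_mem ht).2) hy)
  have h2 : y + t • ρ g y = ((1 : E →L[ℝ] E) + t • ρ g) y := by simp
  rw [h2, one_add_smul_eq ρ g ht]
  simpa using h

lemma act_mem_cone {v y : E} (g : G) (hy : y ∈ cone ρ v) : ρ g y ∈ cone ρ v := by
  have h := apply_mem_cone ρ (lazy_mem ρ g zero_le_one le_rfl) hy
  simpa using h

lemma smul_mem_closure {v y : E} {c : ℝ} (hc : 0 < c) (hy : y ∈ closure (cone ρ v)) :
    c • y ∈ closure (cone ρ v) :=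
  map_mem_closure (continuous_const_smul c) hy (fun _ h => smul_mem_cone ρ hc h)

lemma step_mem_closure {v y : E} (g : G) {t : ℝ} (ht : 0 ≤ t) (hy : y ∈ closure (cone ρ v)) :
    y + t • ρ g y ∈ closure (cone ρ v) :=
  map_mem_closure (f := fun y => y + t • ρ g y) (by fun_prop) hy
    (fun _ h => step_mem_cone ρ g ht h)

/-- First-order optimality: if moving from `w` in direction `d` never decreases the distance
to `y`, then `⟪d, w - y⟫ ≥ 0`. -/
lemma inner_nonneg_of_dist {w y d : E} (h : ∀ t : ℝ, 0 < t → ‖w - y‖ ≤ ‖w + t • d - y‖) :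
    0 ≤ ⟪d, w - y⟫ := by
  by_contra hneg
  push Not at hneg
  have hd : d ≠ 0 := by
    rintro rfl
    simp at hneg
  have hd2 : 0 < ‖d‖ ^ 2 := by positivity
  set a := ⟪d, w - y⟫ with ha
  have ht : 0 < -a / ‖d‖ ^ 2 := div_pos (by linarith) hd2
  have h1 := h _ ht
  have h2 : ‖w + (-a / ‖d‖ ^ 2) • d - y‖ ^ 2 =
      ‖w - y‖ ^ 2 + 2 * (-a / ‖d‖ ^ 2) * a + (-a / ‖d‖ ^ 2) ^ 2 * ‖d‖ ^ 2 := by
    have : w + (-a / ‖d‖ ^ 2) • d - y = (w - y) + (-a / ‖d‖ ^ 2) • d := by abel
    rw [this, norm_add_sq_real, inner_smul_right, norm_smul, mul_pow, real_inner_comm, ← ha]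
    simp only [Real.norm_eq_abs, sq_abs]
    ring
  have h3 : ‖w - y‖ ^ 2 ≤ ‖w + (-a / ‖d‖ ^ 2) • d - y‖ ^ 2 := by gcongr
  rw [h2] at h3
  have h4 : 2 * (-a / ‖d‖ ^ 2) * a + (-a / ‖d‖ ^ 2) ^ 2 * ‖d‖ ^ 2 = - (a ^ 2 / ‖d‖ ^ 2) := by
    field_simp
    ring
  have h5 : 0 < a ^ 2 / ‖d‖ ^ 2 := div_pos (sq_pos_of_neg hneg) hd2
  linarith

/-- If `0 ≤ ⟪ρ g w, z⟫` for all `g` while `∑ ρ g w = 0` and the orbit of `w` spans, `z = 0`. -/
lemma eq_zero_of_inner_nonneg {w z : E} (hsum : ∑ g : G, ρ g w = 0)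
    (hspan : Submodule.span ℝ (Set.range fun g : G => ρ g w) = ⊤)
    (h : ∀ g : G, 0 ≤ ⟪ρ g w, z⟫) : z = 0 := by
  have h0 : ∑ g : G, ⟪ρ g w, z⟫ = 0 := by
    rw [← sum_inner, hsum, inner_zero_left]
  have h1 : ∀ g : G, ⟪ρ g w, z⟫ = 0 := by
    intro g
    exact (Finset.sum_eq_zero_iff_of_nonneg (fun g _ => h g)).1 h0 g (Finset.mem_univ g)
  have h2 : ∀ x ∈ Submodule.span ℝ (Set.range fun g : G => ρ g w), ⟪x, z⟫ = 0 := by
    intro x hx
    induction hx using Submodule.span_induction with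
    | mem x hx =>
      obtain ⟨g, rfl⟩ := hx
      exact h1 g
    | zero => simp
    | add x y _ _ hx hy => rw [inner_add_left, hx, hy, add_zero]
    | smul a x _ hx => rw [inner_smul_left, hx, mul_zero]
  have h3 := h2 z (by rw [hspan]; trivial)
  exact inner_self_eq_zero.1 h3

/-- The reachable cone is dense. -/
lemma dense_cone (hsum : ∀ w : E, ∑ g : G, ρ g w = 0)
    (hspan : ∀ w : E, w ≠ 0 → Submodule.span ℝ (Set.range fun g : G => ρ g w) = ⊤)
    {v : E} (hv : v ≠ 0) : closure (cone ρ v) = Set.univ := by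
  rw [Set.eq_univ_iff_forall]
  intro y
  obtain ⟨w, hw, hdist⟩ := isClosed_closure.exists_infDist_eq_dist
    (⟨v, subset_closure (self_mem_cone ρ v)⟩ : (closure (cone ρ v)).Nonempty) y
  have hmin : ∀ z ∈ closure (cone ρ v), ‖w - y‖ ≤ ‖z - y‖ := by
    intro z hz
    have := Metric.infDist_le_dist_of_mem (x := y) hz
    rw [hdist, dist_comm, dist_comm y z, dist_eq_norm, dist_eq_norm] at this
    exact this
  by_cases hw0 : w = 0
  · subst hw0
    have hy : (0 : E) - y = 0 := by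
      apply eq_zero_of_inner_nonneg ρ (hsum v) (hspan v hv)
      intro g
      apply inner_nonneg_of_dist
      intro t ht
      apply hmin
      rw [zero_add]
      exact smul_mem_closure ρ ht (subset_closure (act_mem_cone ρ g (self_mem_cone ρ v)))
    have : y = 0 := by simpa using hy
    rw [this]; exact hw
  · have hy : w - y = 0 := by
      apply eq_zero_of_inner_nonneg ρ (hsum w) (hspan w hw0)
      intro g
      apply inner_nonneg_of_dist
      intro t ht
      apply hmin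
      exact step_mem_closure ρ g ht.le hw
    rw [sub_eq_zero] at hy
    rw [← hy]; exact hw

/-- the product operator is a positive multiple of an element of the lazy monoid. -/
lemma prodOp_mem (L : List G) (t : G → ℝ) (ht : ∀ g, 0 ≤ t g) :
    ∃ c : ℝ, 0 < c ∧ ∃ T ∈ lazyMonoid ρ, prodOp ρ L t = c • T := by
  induction L with
  | nil => exact ⟨1, one_pos, 1, one_mem _, by simp [prodOp]⟩
  | cons g L ih =>
    obtain ⟨c, hc, T, hT, h⟩ := ih
    refine ⟨(1 + t g) * c, mul_pos (by linarith [ht g]) hc, _,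
      mul_mem (lazy_mem ρ g (frac_mem (ht g)).1 (frac_mem (ht g)).2) hT, ?_⟩
    have : prodOp ρ (g :: L) t = ((1 : E →L[ℝ] E) + t g • ρ g) * prodOp ρ L t := by
      simp [prodOp]
    rw [this, h, one_add_smul_eq ρ g (ht g), smul_mul_smul_comm]

/-- An open set of vectors from which `w` is reached exactly (up to a positive scalar). -/
lemma exists_open_reach (w : E)
    (hspan : Submodule.span ℝ (Set.range fun g : G => ρ g w) = ⊤) :
    ∃ U : Set E, IsOpen U ∧ U.Nonempty ∧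
      ∀ x ∈ U, ∃ T ∈ lazyMonoid ρ, ∃ c : ℝ, 0 < c ∧ T x = c • w := by
  classical
  set L : List G := Finset.univ.toList with hL
  set Ψ : (G → ℝ) → E := fun t => Ring.inverse (prodOp ρ L t) w with hΨ
  set D : (G → ℝ) →L[ℝ] E := (ContinuousLinearMap.apply ℝ E w).comp (-(derivOp ρ L)) with hD
  have hder : HasStrictFDerivAt Ψ D 0 :=
    ((ContinuousLinearMap.apply ℝ E w).hasStrictFDerivAt).comp 0
      (hasStrictFDerivAt_inverse_prodOp ρ L)
  have hDapp : ∀ s : G → ℝ, D s = - ∑ g : G, s g • ρ g w := by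
    intro s
    have : derivOp ρ L s = ∑ g : G, s g • ρ g := by
      rw [derivOp_apply, hL, Finset.sum_map_toList]
    simp [hD, this]
  have hsurj : (D : (G → ℝ) →ₗ[ℝ] E).range = ⊤ := by
    rw [eq_top_iff, ← hspan, Submodule.span_le]
    rintro _ ⟨g, rfl⟩
    refine ⟨-Pi.single g 1, ?_⟩
    show D _ = _
    rw [hDapp]
    simp [Pi.single_apply]
  -- open mapping
  set R := D.nonlinearRightInverseOfSurjective hsurj with hR
  have hRpos : 0 < R.nnnorm := D.nonlinearRightInverseOfSurjective_nnnorm_pos hsurj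
  obtain ⟨s, hs, happ⟩ := hder.approximates_deriv_on_nhds (c := R.nnnorm⁻¹ / 2)
    (Or.inr (by positivity))
  have hunit : ∀ᶠ t in nhds (0 : G → ℝ), IsUnit (prodOp ρ L t) := by
    have hcont : ContinuousAt (prodOp ρ L) 0 := (hasStrictFDerivAt_prodOp ρ L).continuousAt
    have : ∀ᶠ T in nhds (prodOp ρ L 0), IsUnit T := by
      rw [prodOp_zero]
      exact Units.isOpen.mem_nhds isUnit_one
    exact hcont.eventually this
  obtain ⟨ε, hε, hball⟩ := Metric.mem_nhds_iff.1 (Filter.inter_mem hs hunit)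
  set P : Set (G → ℝ) := Metric.ball 0 ε ∩ {t | ∀ g, 0 < t g} with hP
  have hPopen : IsOpen P := by
    refine Metric.isOpen_ball.inter ?_
    have : {t : G → ℝ | ∀ g, 0 < t g} = ⋂ g, {t | 0 < t g} := by ext; simp
    rw [this]
    exact isOpen_iInter_of_finite fun g => isOpen_lt continuous_const (continuous_apply g)
  have hPsub : P ⊆ s := fun t ht => (hball ht.1).1
  refine ⟨Ψ '' P, ?_, ?_, ?_⟩
  · refine (happ.mono_set hPsub).open_image R hPopen (Or.inr ?_)
    exact NNReal.half_lt_self (by positivity)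
  · refine Set.Nonempty.image _ ⟨fun _ => ε / 2, ?_, fun g => by positivity⟩
    rw [Metric.mem_ball, dist_zero_right, pi_norm_lt_iff hε]
    intro g
    rw [Real.norm_eq_abs, abs_of_pos (by positivity)]
    linarith
  · rintro _ ⟨t, ht, rfl⟩
    have hu : IsUnit (prodOp ρ L t) := (hball ht.1).2
    obtain ⟨c, hc, T, hT, hcT⟩ := prodOp_mem ρ L t (fun g => (ht.2 g).le)
    refine ⟨T, hT, c⁻¹, inv_pos.2 hc, ?_⟩
    have h1 : prodOp ρ L t (Ψ t) = w := by
      rw [hΨ]
      have := Ring.mul_inverse_cancel _ hu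
      have h2 := congrArg (fun S : E →L[ℝ] E => S w) this
      simpa using h2
    rw [hcT] at h1
    have h3 : c • T (Ψ t) = w := by simpa using h1
    rw [← h3, smul_smul, inv_mul_cancel₀ hc.ne', one_smul]

/-- Core theorem: every vector can be killed. -/
theorem exists_kill (hsum : ∀ w : E, ∑ g : G, ρ g w = 0)
    (hspan : ∀ w : E, w ≠ 0 → Submodule.span ℝ (Set.range fun g : G => ρ g w) = ⊤)
    (hinv : ∃ g : G, ∃ w : E, w ≠ 0 ∧ ρ g w = -w) (v : E) :
    ∃ T ∈ lazyMonoid ρ, T v = 0 := by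
  by_cases hv : v = 0
  · exact ⟨1, one_mem _, by simp [hv]⟩
  obtain ⟨g, w, hw, hgw⟩ := hinv
  obtain ⟨U, hU, ⟨u, hu⟩, hreach⟩ := exists_open_reach ρ w (hspan w hw)
  have hd : u ∈ closure (cone ρ v) := by rw [dense_cone ρ hsum hspan hv]; trivial
  obtain ⟨x, hxU, c, hc, S, hS, rfl⟩ := mem_closure_iff.1 hd U hU hu
  obtain ⟨T, hT, d, hd, hTd⟩ := hreach _ hxU
  refine ⟨((1 - (1 / 2 : ℝ)) • (1 : E →L[ℝ] E) + (1 / 2 : ℝ) • ρ g) * (T * S),
    mul_mem (lazy_mem ρ g (by norm_num) (by norm_num)) (mul_mem hT hS), ?_⟩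
  have h1 : T (S v) = (c⁻¹ * d) • w := by
    have : T (c • S v) = c • T (S v) := by simp
    rw [this] at hTd
    rw [mul_smul, ← hTd, smul_smul, inv_mul_cancel₀ hc.ne', one_smul]
  have h2 : (((1 - (1 / 2 : ℝ)) • (1 : E →L[ℝ] E) + (1 / 2 : ℝ) • ρ g) * (T * S)) v =
      (1 - (1 / 2 : ℝ)) • (T (S v)) + (1 / 2 : ℝ) • ρ g (T (S v)) := by
    simp
  rw [h2, h1, map_smul, hgw]
  module

end Core

end Pool.Agent.Helper73.Mix
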