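import Mathlib
import Pool.Agent.Helper73.MixCore

namespace Pool.Agent.Helper73.Mix

set_option linter.unusedSectionVars false

variable {G : Type*} [Group G] [Fintype G]

/-- Finite products of lazy elements `(1-p) + p g` in the real group algebra. -/
noncomputable def lazySub (G : Type*) [Group G] : Submonoid (MonoidAlgebra ℝ G) :=
  Submonoid.closure
    {a | ∃ (g : G) (p : ℝ), 0 ≤ p ∧ p ≤ 1 ∧
      a = (1 - p) • (1 : MonoidAlgebra ℝ G) + p • MonoidAlgebra.of ℝ G g}

/-- The uniform element. -/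
noncomputable def unif (G : Type*) [Group G] [Fintype G] : MonoidAlgebra ℝ G :=
  (Fintype.card G : ℝ)⁻¹ • ∑ g : G, MonoidAlgebra.of ℝ G g

lemma card_smul_unif : (Fintype.card G : ℝ) • unif G = ∑ g : G, MonoidAlgebra.of ℝ G g := by
  rw [unif, smul_smul, mul_inv_cancel₀ (by exact_mod_cast Fintype.card_ne_zero), one_smul]

lemma of_mul_unif (g : G) : MonoidAlgebra.of ℝ G g * unif G = unif G := by
  rw [unif, mul_smul_comm, Finset.mul_sum]
  congr 1
  simp_rw [← map_mul]
  exact Fintype.sum_bijective (fun x => g * x) (Group.mulLeft_bijective g) _ _ (fun _ => rfl)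

lemma unif_mul_of (g : G) : unif G * MonoidAlgebra.of ℝ G g = unif G := by
  rw [unif, smul_mul_assoc, Finset.sum_mul]
  congr 1
  simp_rw [← map_mul]
  exact Fintype.sum_bijective (fun x => x * g) (Group.mulRight_bijective g) _ _ (fun _ => rfl)

lemma of_mul_comm_unif (g : G) :
    MonoidAlgebra.of ℝ G g * unif G = unif G * MonoidAlgebra.of ℝ G g := by
  rw [of_mul_unif, unif_mul_of]

lemma unif_comm (a : MonoidAlgebra ℝ G) : unif G * a = a * unif G := by
  induction a using MonoidAlgebra.induction_on with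
  | of g => exact (of_mul_comm_unif g).symm
  | add x y hx hy => rw [mul_add, add_mul, hx, hy]
  | smul r x hx => rw [mul_smul_comm, smul_mul_assoc, hx]

lemma unif_mul_unif : unif G * unif G = unif G := by
  conv_lhs => enter [1]; rw [unif]
  rw [smul_mul_assoc, Finset.sum_mul]
  simp_rw [of_mul_unif]
  rw [Finset.sum_const, Finset.card_univ, ← Nat.cast_smul_eq_nsmul ℝ, smul_smul,
    inv_mul_cancel₀ (by exact_mod_cast Fintype.card_ne_zero), one_smul]

lemma mul_unif_of_mem {X : MonoidAlgebra ℝ G} (hX : X ∈ lazySub G) : X * unif G = unif G := by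
  induction hX using Submonoid.closure_induction with
  | mem x hx =>
    obtain ⟨g, p, -, -, rfl⟩ := hx
    rw [add_mul, smul_mul_assoc, smul_mul_assoc, of_mul_unif, one_mul, ← add_smul]
    simp
  | one => rw [one_mul]
  | mul x y _ _ hx hy => rw [mul_assoc, hy, hx]

section Module

variable {M : Type*} [AddCommGroup M] [Module (MonoidAlgebra ℝ G) M] [Module ℝ M]
  [IsScalarTower ℝ (MonoidAlgebra ℝ G) M]

/-- Killing vectors in a simple module without invariants. -/
theorem exists_kill_simple [FiniteDimensional ℝ M] [IsSimpleModule (MonoidAlgebra ℝ G) M]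
    (h0 : ∀ m : M, unif G • m = 0)
    (hinv : ∃ g : G, ∃ m : M, m ≠ 0 ∧ MonoidAlgebra.of ℝ G g • m = -m) (v : M) :
    ∃ X ∈ lazySub G, X • v = 0 := by
  classical
  let E := EuclideanSpace ℝ (Fin (Module.finrank ℝ M))
  let φ : M ≃ₗ[ℝ] E := LinearEquiv.ofFinrankEq _ _ (by simp [E])
  let Φ : MonoidAlgebra ℝ G →ₐ[ℝ] (E →L[ℝ] E) :=
    ((Module.End.toContinuousLinearMap (𝕜 := ℝ) E).toAlgHom.comp
      ((φ.conjAlgEquiv ℝ).toAlgHom.comp (Algebra.lsmul ℝ ℝ M)))
  have hΦ : ∀ (a : MonoidAlgebra ℝ G) (m : M), Φ a (φ m) = φ (a • m) := by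
    intro a m
    change φ (a • φ.symm (φ m)) = φ (a • m)
    rw [φ.symm_apply_apply]
  let ρ : G →* (E →L[ℝ] E) := (Φ : MonoidAlgebra ℝ G →* (E →L[ℝ] E)).comp (MonoidAlgebra.of ℝ G)
  have hρ : ∀ (g : G) (m : M), ρ g (φ m) = φ (MonoidAlgebra.of ℝ G g • m) := fun g m => hΦ _ m
  have hsum : ∀ w : E, ∑ g : G, ρ g w = 0 := by
    intro w
    obtain ⟨m, rfl⟩ := φ.surjective w
    simp_rw [hρ]
    rw [← map_sum, ← Finset.sum_smul, ← card_smul_unif, smul_assoc, h0]
    simp
  have hspan : ∀ w : E, w ≠ 0 → Submodule.span ℝ (Set.range fun g : G => ρ g w) = ⊤ := by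
    intro w hw
    obtain ⟨m, rfl⟩ := φ.surjective w
    have hm : m ≠ 0 := by
      rintro rfl
      exact hw (map_zero φ)
    rw [eq_top_iff]
    rintro y -
    obtain ⟨m', rfl⟩ := φ.surjective y
    obtain ⟨a, rfl⟩ := IsSimpleModule.toSpanSingleton_surjective (MonoidAlgebra ℝ G) hm m'
    rw [LinearMap.toSpanSingleton_apply]
    induction a using MonoidAlgebra.induction_on with
    | of g =>
      rw [← hρ]
      exact Submodule.subset_span ⟨g, rfl⟩
    | add x y hx hy =>
      rw [add_smul, map_add]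
      exact add_mem hx hy
    | smul r x hx =>
      rw [smul_assoc, map_smul]
      exact Submodule.smul_mem _ _ hx
  have hinv' : ∃ g : G, ∃ w : E, w ≠ 0 ∧ ρ g w = -w := by
    obtain ⟨g, m, hm, hgm⟩ := hinv
    refine ⟨g, φ m, ?_, ?_⟩
    · simpa using hm
    · rw [hρ, hgm, map_neg]
  obtain ⟨T, hT, hTv⟩ := exists_kill ρ hsum hspan hinv' (φ v)
  have hT' : ∃ X ∈ lazySub G, Φ X = T := by
    clear hTv
    induction hT using Submonoid.closure_induction with
    | mem x hx =>
      obtain ⟨g, p, hp0, hp1, rfl⟩ := hx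
      refine ⟨_, Submonoid.subset_closure ⟨g, p, hp0, hp1, rfl⟩, ?_⟩
      rw [map_add, map_smul, map_smul, map_one]
      rfl
    | one => exact ⟨1, one_mem _, map_one _⟩
    | mul x y _ _ hx hy =>
      obtain ⟨X, hX, rfl⟩ := hx
      obtain ⟨Y, hY, rfl⟩ := hy
      exact ⟨X * Y, mul_mem hX hY, map_mul _ _ _⟩
  obtain ⟨X, hX, rfl⟩ := hT'
  refine ⟨X, hX, ?_⟩
  rw [hΦ] at hTv
  simpa using hTv

/-- If `G` has no odd-order quotients, some group element acts on some nonzero vector of a
nontrivial module without invariants as `-1`. -/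
lemma exists_neg [Nontrivial M] (hG : ∀ N : Subgroup G, N.Normal → Odd N.index → N = ⊤)
    (h0 : ∀ m : M, unif G • m = 0) :
    ∃ g : G, ∃ m : M, m ≠ 0 ∧ MonoidAlgebra.of ℝ G g • m = -m := by
  classical
  let f : G →* Module.End ℝ M :=
    ((Algebra.lsmul ℝ ℝ M : MonoidAlgebra ℝ G →ₐ[ℝ] Module.End ℝ M) :
      MonoidAlgebra ℝ G →* Module.End ℝ M).comp (MonoidAlgebra.of ℝ G)
  have hf : ∀ (g : G) (m : M), f g m = MonoidAlgebra.of ℝ G g • m := fun g m => rfl
  have hne : f.ker ≠ ⊤ := by
    intro htop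
    obtain ⟨m, hm⟩ := exists_ne (0 : M)
    apply hm
    have h1 : ∀ g : G, MonoidAlgebra.of ℝ G g • m = m := by
      intro g
      have : g ∈ f.ker := by rw [htop]; trivial
      rw [MonoidHom.mem_ker] at this
      rw [← hf, this]
      rfl
    have h2 := h0 m
    rw [unif, smul_assoc, Finset.sum_smul] at h2
    simp_rw [h1] at h2
    rw [Finset.sum_const, Finset.card_univ, ← Nat.cast_smul_eq_nsmul ℝ, smul_smul,
      inv_mul_cancel₀ (by exact_mod_cast Fintype.card_ne_zero), one_smul] at h2
    exact h2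
  have hodd : ¬ Odd f.ker.index := fun h => hne (hG _ inferInstance h)
  rw [Nat.not_odd_iff_even] at hodd
  have h2 : 2 ∣ Nat.card (G ⧸ f.ker) := hodd.two_dvd
  obtain ⟨q, hq⟩ := exists_prime_orderOf_dvd_card' 2 h2
  obtain ⟨g, rfl⟩ := QuotientGroup.mk_surjective q
  have hg1 : f g ≠ 1 := by
    intro h
    have : (QuotientGroup.mk g : G ⧸ f.ker) = 1 := (QuotientGroup.eq_one_iff g).2 h
    rw [this, orderOf_one] at hq
    omega
  have hg2 : f g * f g = 1 := by
    have h3 : (QuotientGroup.mk (g ^ 2) : G ⧸ f.ker) = 1 := by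
      rw [QuotientGroup.mk_pow, ← hq, pow_orderOf_eq_one]
    have h4 : f (g ^ 2) = 1 := (QuotientGroup.eq_one_iff _).1 h3
    rw [map_pow, pow_two] at h4
    exact h4
  have h5 : ∃ m, f g m ≠ m := by
    by_contra hcon
    push Not at hcon
    exact hg1 (LinearMap.ext hcon)
  obtain ⟨m, hm⟩ := h5
  refine ⟨g, m - f g m, sub_ne_zero.2 (Ne.symm hm), ?_⟩
  rw [← hf, map_sub]
  have h6 : f g (f g m) = m := by
    have := congrArg (fun T : Module.End ℝ M => T m) hg2
    simpa using this
  rw [h6]
  abel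

end Module

/-- **Main theorem, group algebra form.** -/
theorem unif_mem_lazySub (hG : ∀ N : Subgroup G, N.Normal → Odd N.index → N = ⊤) :
    unif G ∈ lazySub G := by
  classical
  let A := MonoidAlgebra ℝ G
  have key : ∀ x : A, ∀ Y ∈ lazySub G, ∃ X ∈ lazySub G, X * (Y * (x - unif G * x)) = 0 := by
    intro x
    have hx : x ∈ ⨆ W : {W : Submodule A A // IsSimpleModule A W}, (W : Submodule A A) := by
      have h := IsSemisimpleModule.sSup_simples_eq_top A A
      rw [sSup_eq_iSup'] at h
      have h' : (⨆ W : {W : Submodule A A // IsSimpleModule A W}, (W : Submodule A A)) = ⊤ := h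
      rw [h']
      trivial
    refine Submodule.iSup_induction _ (motive := fun x : A => ∀ Y ∈ lazySub G,
      ∃ X ∈ lazySub G, X * (Y * (x - unif G * x)) = 0) hx ?_ ?_ ?_
    · rintro ⟨W, hW⟩ x hxW Y hY
      change x ∈ W at hxW
      have : IsSimpleModule A W := hW
      -- multiplication by `unif` on `W`
      let T : W →ₗ[A] W :=
        { toFun := fun w => unif G • w
          map_add' := fun a b => smul_add _ _ _
          map_smul' := fun a w => by
            apply Subtype.ext
            simp only [Submodule.coe_smul, smul_eq_mul, RingHom.id_apply]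
            rw [← mul_assoc, unif_comm, mul_assoc] }
      have hT : ∀ w : W, ((T w : W) : A) = unif G * w := fun w => rfl
      rcases LinearMap.bijective_or_eq_zero T with hb | hz
      · have h1 : T (⟨x, hxW⟩ - T ⟨x, hxW⟩) = 0 := by
          apply Subtype.ext
          rw [hT]
          simp only [AddSubgroupClass.coe_sub, hT, ZeroMemClass.coe_zero]
          rw [mul_sub, ← mul_assoc, unif_mul_unif, sub_self]
        have h2 := hb.1 (h1.trans (map_zero T).symm)
        have h3 : x - unif G * x = 0 := congrArg Subtype.val h2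
        exact ⟨1, one_mem _, by rw [h3]; simp⟩
      · have h0 : ∀ m : W, unif G • m = 0 := fun m => by
          have : T m = 0 := by rw [hz]; rfl
          exact this
        have : Nontrivial W := IsSimpleModule.nontrivial A W
        have : FiniteDimensional ℝ W :=
          FiniteDimensional.of_injective ((W.subtype).restrictScalars ℝ) Subtype.val_injective
        have hinv := exists_neg (M := W) hG h0
        have hx0 : unif G * x = 0 := congrArg Subtype.val (h0 ⟨x, hxW⟩)
        obtain ⟨X, hX, hXv⟩ := exists_kill_simple (M := W) h0 hinv (Y • ⟨x, hxW⟩)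
        refine ⟨X, hX, ?_⟩
        rw [hx0, sub_zero]
        exact congrArg Subtype.val hXv
    · intro Y hY
      exact ⟨1, one_mem _, by simp⟩
    · intro x y hx hy Y hY
      obtain ⟨X1, hX1, h1⟩ := hx Y hY
      obtain ⟨X2, hX2, h2⟩ := hy (X1 * Y) (mul_mem hX1 hY)
      refine ⟨X2 * X1, mul_mem hX2 hX1, ?_⟩
      have e : X2 * X1 * (Y * (x + y - unif G * (x + y))) =
          X2 * (X1 * (Y * (x - unif G * x))) + X2 * (X1 * Y * (y - unif G * y)) := by
        noncomm_ring
      rw [e, h1, h2]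
      simp
  obtain ⟨X, hX, h⟩ := key 1 1 (one_mem _)
  rw [one_mul, mul_one, mul_sub, mul_one, mul_unif_of_mem hX, sub_eq_zero] at h
  rw [← h]
  exact hX

end Pool.Agent.Helper73.Mix
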